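import Mathlib

open scoped Topology
open Filter

namespace Pool.Agent.Results.MP_b3b95b_an.BoundedExt

/-- The closed linear span of a sequence. -/
def closedSpan (𝕜 : Type*) [RCLike 𝕜] {E : Type*} [NormedAddCommGroup E] [NormedSpace 𝕜 E]
    (x : ℕ → E) : Submodule 𝕜 E :=
  (Submodule.span 𝕜 (Set.range x)).topologicalClosure

section

variable {𝕜 : Type*} [RCLike 𝕜] {E : Type*} [NormedAddCommGroup E] [NormedSpace 𝕜 E]

lemma mem_closedSpan (x : ℕ → E) (n : ℕ) : x n ∈ closedSpan 𝕜 x :=
  Submodule.le_topologicalClosure _ (Submodule.subset_span ⟨n, rfl⟩)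

instance closed_closedSpan (x : ℕ → E) : IsClosed (closedSpan 𝕜 x : Set E) :=
  Submodule.isClosed_topologicalClosure _

/-- Uniform estimate on the unit sphere of a finite dimensional space: functionals that are
uniformly bounded and pointwise eventually at most `c * ‖v‖` are eventually uniformly at most
`(c + δ) * ‖v‖`. -/
lemma eventually_uniform {V : Type*} [NormedAddCommGroup V] [NormedSpace 𝕜 V]
    [FiniteDimensional 𝕜 V] (G : ℕ → (V →ₗ[𝕜] 𝕜)) (L : ℝ) (hL : 0 ≤ L)
    (hG : ∀ n v, ‖G n v‖ ≤ L * ‖v‖) (c δ : ℝ) (hδ : 0 < δ)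
    (hpt : ∀ v, ‖v‖ = 1 → ∀ᶠ n in atTop, ‖G n v‖ ≤ c + δ / 2) :
    ∀ᶠ n in atTop, ∀ v, ‖G n v‖ ≤ (c + δ) * ‖v‖ := by
  have : ProperSpace V := FiniteDimensional.proper 𝕜 V
  set r : ℝ := δ / (2 * (L + 1)) with hr
  have hr0 : 0 < r := by positivity
  have hLr : L * r ≤ δ / 2 := by
    rw [hr]
    have : L * (δ / (2 * (L + 1))) = (L / (L + 1)) * (δ / 2) := by
      field_simp
    rw [this]
    have h1 : L / (L + 1) ≤ 1 := by
      rw [div_le_one (by positivity)]; linarith
    calc (L / (L + 1)) * (δ / 2) ≤ 1 * (δ / 2) := by gcongr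
      _ = δ / 2 := one_mul _
  have hcomp : IsCompact (Metric.sphere (0 : V) 1) := isCompact_sphere 0 1
  obtain ⟨t, htS, htcov⟩ := hcomp.elim_nhds_subcover (fun v => Metric.ball v r)
    (fun v _ => Metric.ball_mem_nhds v hr0)
  have hev : ∀ᶠ n in atTop, ∀ v ∈ t, ‖G n v‖ ≤ c + δ / 2 := by
    rw [Filter.eventually_all_finset]
    intro v hv
    exact hpt v (by simpa using htS v hv)
  filter_upwards [hev] with n hn v
  by_cases hv : v = 0
  · subst hv; simp
  have hv0 : 0 < ‖v‖ := norm_pos_iff.mpr hv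
  set u : V := ((‖v‖ : 𝕜)⁻¹) • v with hu
  have hu1 : ‖u‖ = 1 := by
    rw [hu, norm_smul, norm_inv, RCLike.norm_ofReal, abs_norm, inv_mul_cancel₀ hv0.ne']
  have huS : u ∈ Metric.sphere (0 : V) 1 := by simpa using hu1
  obtain ⟨w, hwt, hw⟩ : ∃ w ∈ t, u ∈ Metric.ball w r := by
    have := htcov huS
    simpa using this
  have h1 : ‖G n u‖ ≤ c + δ := by
    have h2 : G n u = G n w + G n (u - w) := by rw [map_sub]; ring
    rw [h2]
    refine (norm_add_le _ _).trans ?_
    have h3 := hn w hwt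
    have h4 : ‖G n (u - w)‖ ≤ L * r := by
      refine (hG n _).trans ?_
      rw [Metric.mem_ball, dist_eq_norm] at hw
      gcongr
    linarith
  have h5 : v = (‖v‖ : 𝕜) • u := by
    rw [hu, smul_smul, mul_inv_cancel₀ (by exact_mod_cast hv0.ne'), one_smul]
  have h6 : ‖G n v‖ = ‖v‖ * ‖G n u‖ := by
    conv_lhs => rw [h5]
    rw [map_smul, norm_smul, RCLike.norm_ofReal, abs_norm]
  rw [h6, mul_comm]
  gcongr

end

/-- The same statement for a closed subspace `Y` in which the linear span of the sequence is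
dense. -/
theorem aux (𝕜 : Type*) [RCLike 𝕜] (E : Type*) [NormedAddCommGroup E] [NormedSpace 𝕜 E]
    [TopologicalSpace.SeparableSpace E] (x : ℕ → E)
    (Y : Submodule 𝕜 E) [hYc : IsClosed (Y : Set E)] (hYx : ∀ n, x n ∈ Y)
    (hYd : ∀ y ∈ Y, y ∈ closure (Submodule.span 𝕜 (Set.range x) : Set E))
    (φ : ℕ → (Y →L[𝕜] 𝕜))
    (hφ : ∀ i j (h : x j ∈ Y), φ i ⟨x j, h⟩ = if i = j then 1 else 0)
    (C : ℝ) (hC : ∀ n, ‖φ n‖ ≤ C) (ε : ℝ) (hε : 0 < ε) :
    ∃ f : ℕ → (E →L[𝕜] 𝕜),
      (∀ n (y : Y), f n y = φ n y) ∧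
      (∀ n, ‖f n‖ ≤ (2 + ε) * C) ∧
      Dense {v : E | ∃ y ∈ Y, ∃ z : E, (∀ n, f n z = 0) ∧ v = y + z} := by
  classical
  -- `C` is positive
  have hC0 : 0 < C := by
    have h1 : φ 0 ⟨x 0, hYx 0⟩ = 1 := by rw [hφ]; simp
    have h2 : φ 0 ≠ 0 := by
      intro h
      rw [h] at h1
      simp at h1
    exact (norm_pos_iff.mpr h2).trans_le (hC 0)
  -- Hahn-Banach extensions
  choose F hF hFn using fun n => exists_extension_norm_eq Y (φ n)
  have hFx : ∀ i j, F i (x j) = if i = j then 1 else 0 := by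
    intro i j
    have := hF i ⟨x j, hYx j⟩
    rw [hφ] at this
    exact this
  have hFC : ∀ n v, ‖F n v‖ ≤ C * ‖v‖ := by
    intro n v
    refine ((F n).le_opNorm v).trans ?_
    rw [hFn]
    gcongr
    exact hC n
  -- on the algebraic span the functionals are eventually zero
  have hspan : ∀ y ∈ Submodule.span 𝕜 (Set.range x), ∀ᶠ n in atTop, F n y = 0 := by
    intro y hy
    induction hy using Submodule.span_induction with
    | mem y hy =>
      obtain ⟨j, rfl⟩ := hy
      filter_upwards [eventually_gt_atTop j] with n hn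
      rw [hFx, if_neg (by omega)]
    | zero => exact Eventually.of_forall fun n => map_zero _
    | add a b _ _ ha hb =>
      filter_upwards [ha, hb] with n h1 h2
      rw [map_add, h1, h2, add_zero]
    | smul c a _ ha =>
      filter_upwards [ha] with n h1
      rw [map_smul, h1, smul_zero]
  -- an algebraic section of the quotient map
  obtain ⟨s, hs⟩ := Y.mkQ.exists_rightInverse_of_surjective
    (LinearMap.range_eq_top.mpr (Submodule.mkQ_surjective Y))
  have hs' : ∀ v : E ⧸ Y, Y.mkQ (s v) = v := fun v => by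
    have := congrArg (fun g => g v) hs
    simpa using this
  -- a dense sequence in the quotient
  have : TopologicalSpace.SeparableSpace (E ⧸ Y) :=
    (Submodule.mkQ_surjective Y).denseRange.separableSpace
      (show Continuous (Y.mkQ : E → E ⧸ Y) from continuous_quot_mk)
  set d : ℕ → E ⧸ Y := TopologicalSpace.denseSeq (E ⧸ Y) with hd
  have hdd : DenseRange d := TopologicalSpace.denseRange_denseSeq _
  let V : ℕ → Submodule 𝕜 (E ⧸ Y) := fun K => Submodule.span 𝕜 (d '' Set.Iio K)
  have hVfin : ∀ K, FiniteDimensional 𝕜 (V K) := fun K =>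
    FiniteDimensional.span_of_finite 𝕜 ((Set.finite_Iio K).image d)
  -- the good set
  let good : ℕ → ℕ → Prop := fun n K => ∀ v ∈ V K, ‖F n (s v)‖ ≤ (1 + ε) * C * ‖v‖
  have hgood0 : ∀ n, good n 0 := by
    intro n v hv
    have : V 0 = ⊥ := by
      simp only [V]
      have : Set.Iio 0 = (∅ : Set ℕ) := by ext; simp
      rw [this, Set.image_empty, Submodule.span_empty]
    rw [this, Submodule.mem_bot] at hv
    subst hv
    simp
  have hgood : ∀ K, ∀ᶠ n in atTop, good n K := by
    intro K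
    -- the section restricted to `V K` is bounded
    let sK : V K →ₗ[𝕜] E := s.comp (V K).subtype
    let sKc : V K →L[𝕜] E := LinearMap.toContinuousLinearMap sK
    have key := eventually_uniform (fun n => (F n).toLinearMap.comp sK) (C * ‖sKc‖)
      (by positivity)
      (fun n v => by
        have h1 : ‖F n (sK v)‖ ≤ C * ‖sK v‖ := hFC n _
        have h2 : ‖sK v‖ ≤ ‖sKc‖ * ‖v‖ := sKc.le_opNorm v
        calc ‖((F n).toLinearMap.comp sK) v‖ = ‖F n (sK v)‖ := rfl
          _ ≤ C * ‖sK v‖ := h1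
          _ ≤ C * (‖sKc‖ * ‖v‖) := by gcongr
          _ = C * ‖sKc‖ * ‖v‖ := by ring)
      C (ε * C) (by positivity)
      (fun v hv => by
        -- pick a good representative
        have hη : 0 < ε / 4 := by positivity
        obtain ⟨m, hm1, hm2⟩ := Submodule.Quotient.norm_mk_lt (v : E ⧸ Y) hη
        have hmem : s (v : E ⧸ Y) - m ∈ Y := by
          rw [← Submodule.Quotient.mk_eq_zero Y]
          have h0 : Y.mkQ (s (v : E ⧸ Y) - m) = 0 := by
            have h00 : Y.mkQ m = (v : E ⧸ Y) := hm1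
            rw [map_sub, hs', h00, sub_self]
          exact h0
        have hcl : s (v : E ⧸ Y) - m ∈ closure (Submodule.span 𝕜 (Set.range x) : Set E) := hYd _ hmem
        obtain ⟨y, hy, hyd⟩ := Metric.mem_closure_iff.mp hcl (ε / 4) hη
        filter_upwards [hspan y hy] with n hn
        have h1 : F n (s (v : E ⧸ Y)) = F n (s (v : E ⧸ Y) - y) := by
          rw [map_sub, hn, sub_zero]
        have h2 : ‖s (v : E ⧸ Y) - y‖ ≤ 1 + ε / 2 := by
          have : s (v : E ⧸ Y) - y = m + ((s (v : E ⧸ Y) - m) - y) := by abel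
          rw [this]
          refine (norm_add_le _ _).trans ?_
          rw [dist_eq_norm] at hyd
          have hv1 : ‖(v : E ⧸ Y)‖ = 1 := hv
          rw [hv1] at hm2
          linarith
        calc ‖((F n).toLinearMap.comp sK) v‖ = ‖F n (s (v : E ⧸ Y))‖ := rfl
          _ = ‖F n (s (v : E ⧸ Y) - y)‖ := by rw [h1]
          _ ≤ C * ‖s (v : E ⧸ Y) - y‖ := hFC n _
          _ ≤ C * (1 + ε / 2) := by gcongr
          _ = C + ε * C / 2 := by ring)
    filter_upwards [key] with n hn v hv
    have := hn ⟨v, hv⟩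
    calc ‖F n (s v)‖ ≤ (C + ε * C) * ‖v‖ := this
      _ = (1 + ε) * C * ‖v‖ := by ring
  -- the level function
  let κ : ℕ → ℕ := fun n => Nat.findGreatest (fun K => good n K) n
  have hκ : ∀ n, good n (κ n) := by
    intro n
    exact Nat.findGreatest_spec (P := fun K => good n K) (Nat.zero_le n) (hgood0 n)
  have hκ2 : ∀ K, ∀ᶠ n in atTop, K ≤ κ n := by
    intro K
    filter_upwards [hgood K, eventually_ge_atTop K] with n h1 h2
    exact Nat.le_findGreatest h2 h1
  -- the corrections
  have hcorr : ∀ n, ∃ h : (E ⧸ Y) →L[𝕜] 𝕜, ‖h‖ ≤ (1 + ε) * C ∧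
      ∀ v ∈ V (κ n), h v = - F n (s v) := by
    intro n
    let g0 : V (κ n) →ₗ[𝕜] 𝕜 := -((F n).toLinearMap.comp (s.comp (V (κ n)).subtype))
    let g : V (κ n) →L[𝕜] 𝕜 := g0.mkContinuous ((1 + ε) * C) (fun v => by
      have := hκ n v v.2
      simpa [g0] using this)
    obtain ⟨h, hh1, hh2⟩ := exists_extension_norm_eq (V (κ n)) g
    refine ⟨h, ?_, ?_⟩
    · rw [hh2]
      exact LinearMap.mkContinuous_norm_le _ (by positivity) _
    · intro v hv
      have := hh1 ⟨v, hv⟩
      rw [this]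
      rfl
  choose h hh1 hh2 using hcorr
  -- the quotient map as a continuous linear map
  let Q : E →L[𝕜] E ⧸ Y :=
    LinearMap.mkContinuous Y.mkQ 1 (fun v => by
      rw [one_mul]
      exact Submodule.Quotient.norm_mk_le Y v)
  have hQn : ‖Q‖ ≤ 1 := LinearMap.mkContinuous_norm_le _ zero_le_one _
  refine ⟨fun n => F n + (h n).comp Q, ?_, ?_, ?_⟩
  · intro n y
    have : Q (y : E) = 0 := by
      change Y.mkQ (y : E) = 0
      rw [Submodule.mkQ_apply, Submodule.Quotient.mk_eq_zero]
      exact y.2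
    simp only [add_apply, ContinuousLinearMap.comp_apply, this, map_zero,
      add_zero]
    exact hF n y
  · intro n
    refine (norm_add_le _ _).trans ?_
    have h1 : ‖F n‖ ≤ C := by rw [hFn]; exact hC n
    have h2 : ‖(h n).comp Q‖ ≤ (1 + ε) * C := by
      refine ((h n).opNorm_comp_le Q).trans ?_
      calc ‖h n‖ * ‖Q‖ ≤ ((1 + ε) * C) * 1 := by
            gcongr
            exact hh1 n
        _ = (1 + ε) * C := mul_one _
    linarith
  · -- density
    have hdense : Dense ((Y.mkQ : E → E ⧸ Y) ⁻¹' (Set.range d)) :=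
      Dense.preimage hdd (Submodule.isOpenMap_mkQ Y)
    refine hdense.mono ?_
    rintro v ⟨k, hk⟩
    -- the functionals vanish at `s (d k)` eventually
    have hev : ∀ᶠ n in atTop, (F n + (h n).comp Q) (s (d k)) = 0 := by
      filter_upwards [hκ2 (k + 1)] with n hn
      have hmem : d k ∈ V (κ n) :=
        Submodule.subset_span ⟨k, by simp only [Set.mem_Iio]; omega, rfl⟩
      have h1 : Q (s (d k)) = d k := hs' _
      rw [add_apply, ContinuousLinearMap.comp_apply, h1, hh2 n _ hmem]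
      ring
    obtain ⟨N, hN⟩ := eventually_atTop.mp hev
    set f : ℕ → (E →L[𝕜] 𝕜) := fun n => F n + (h n).comp Q with hf
    have hfx : ∀ i j, f i (x j) = if i = j then 1 else 0 := by
      intro i j
      have : Q (x j) = 0 := by
        change Y.mkQ (x j) = 0
        rw [Submodule.mkQ_apply, Submodule.Quotient.mk_eq_zero]
        exact hYx j
      simp only [hf, add_apply, ContinuousLinearMap.comp_apply, this, map_zero,
        add_zero]
      exact hFx i j
    set z : E := s (d k) - ∑ n ∈ Finset.range N, f n (s (d k)) • x n with hz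
    refine ⟨v - z, ?_, z, ?_, by abel⟩
    · have h1 : v - s (d k) ∈ Y := by
        rw [← Submodule.Quotient.mk_eq_zero Y]
        have h0 : Y.mkQ (v - s (d k)) = 0 := by
          rw [map_sub, hs', hk, sub_self]
        exact h0
      have h2 : v - z = (v - s (d k)) + ∑ n ∈ Finset.range N, f n (s (d k)) • x n := by
        rw [hz]; abel
      rw [h2]
      exact Submodule.add_mem _ h1
        (Submodule.sum_mem _ fun n _ => Submodule.smul_mem _ _ (hYx n))
    · intro m
      rw [hz, map_sub, map_sum]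
      simp only [map_smul, hfx, smul_eq_mul, mul_ite, mul_one, mul_zero]
      rw [Finset.sum_ite_eq]
      split_ifs with hm
      · exact sub_self _
      · rw [sub_zero]
        exact hN m (by simpa using hm)

/-- Let `x` be a sequence in a separable Banach space `E`, with associated functionals `φ n` on the
closed linear span `[x]` (`φ i (x j) = δ i j`), `‖φ n‖ ≤ C` for all `n`. Then for every `ε > 0`
the `φ n` have extensions `f n` to `E` with `‖f n‖ ≤ (2 + ε) C` for all `n` such that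
`[x] + [f]_⊥` is dense in `E`. -/
theorem result (𝕜 : Type*) [RCLike 𝕜] (E : Type*) [NormedAddCommGroup E] [NormedSpace 𝕜 E]
    [CompleteSpace E] [TopologicalSpace.SeparableSpace E] (x : ℕ → E)
    (φ : ℕ → (closedSpan 𝕜 x →L[𝕜] 𝕜))
    (hφ : ∀ i j (h : x j ∈ closedSpan 𝕜 x), φ i ⟨x j, h⟩ = if i = j then 1 else 0)
    (C : ℝ) (hC : ∀ n, ‖φ n‖ ≤ C) (ε : ℝ) (hε : 0 < ε) :
    ∃ f : ℕ → (E →L[𝕜] 𝕜),
      (∀ n (y : closedSpan 𝕜 x), f n y = φ n y) ∧
      (∀ n, ‖f n‖ ≤ (2 + ε) * C) ∧
      Dense {v : E | ∃ y ∈ closedSpan 𝕜 x, ∃ z : E, (∀ n, f n z = 0) ∧ v = y + z} :=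
  aux 𝕜 E x (closedSpan 𝕜 x) (mem_closedSpan x) (fun _ h => h) φ hφ C hC ε hε

end Pool.Agent.Results.MP_b3b95b_an.BoundedExt
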